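import Pool.Agent.H19.VX.Main
import Pool.Agent.H67.LF.Main
import Pool.Agent.H19.LI.Links
import Pool.Agent.H19.PD.L2
import Pool.Agent.H4.HY.SphLink

/-!
# Project VX: complexes whose links in codimension `r` are good
-/

set_option autoImplicit false

open Finset

namespace Pool.Agent.H19.VX

open Pool.Agent.H19.LI Pool.Agent.H4.FD Pool.Agent.H4.HY Pool.Agent.H85.Fold4

/-- There are vectors `(p v, a v)` in some `ℝ^{r,m}` with squares 1, products 0 for adjacent vertices and negative
products for the other pairs of vertices: the right-angled Coxeter group is generated by reflections in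
`ℝ^{r,m}`. -/
def IsFolded {V : Type} (G : SimpleGraph V) (r : ℕ) : Prop :=
  ∃ (m : ℕ) (p : V → Fin r → ℝ) (a : V → Fin m → ℝ),
    (∀ v, p v ⬝ᵥ p v = a v ⬝ᵥ a v + 1) ∧ (∀ u v, G.Adj u v → p u ⬝ᵥ p v = a u ⬝ᵥ a v) ∧
      ∀ u v, u ≠ v → ¬ G.Adj u v → p u ⬝ᵥ p v < a u ⬝ᵥ a v

/-- The flag complex of the graph `K` is one of the following:
* a homology sphere of dimension `r - 1`, `r` odd, with folded vertex links (no condition if `r = 3`);
* a folded sphere of dimension `r - 1`;
* the order complex of a finite graded poset of rank `r` with exact intervals (Gorenstein* if `r` is odd);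
* the nested complex of a connected flag building set on `r + 1` points. -/
def IsGood {W : Type} [DecidableEq W] [Fintype W] (K : SimpleGraph W) (r : ℕ) : Prop :=
  (Odd r ∧ HomologySphere K r ∧ (r = 3 ∨ ∀ v, IsFolded (K.induce (K.neighborSet v)) (r - 1))) ∨
    FoldedSphere K r ∨ OrderComplex K r ∨ NestedComplex K r

/-- the common neighbours of the vertices in `σ` -/
def cn {V : Type} (G : SimpleGraph V) (σ : Finset V) : Set V := {w | ∀ v ∈ σ, G.Adj v w}

/-- The link of every clique with `m` vertices is a full subcomplex of a complex as in `IsGood`. -/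
def LinksGood {V : Type} (L : SimpleGraph V) (m r : ℕ) : Prop :=
  ∀ σ : Finset V, L.IsClique (σ : Set V) → σ.card = m →
    ∃ (W : Type) (_ : DecidableEq W) (_ : Fintype W) (K : SimpleGraph W),
      IsGood K r ∧ Nonempty (L.induce (cn L σ) ↪g K)

theorem good_l2 {V W : Type} [DecidableEq V] [Fintype V] [DecidableEq W] [Fintype W]
    (L : SimpleGraph V) (K : SimpleGraph W) (r : ℕ) (hK : IsGood K r) (e : L ↪g K) {i : ℕ}
    (hi : r < 2 * i) : Pool.Agent.H4.Singer.L2HomologyZero L i := by
  have hadj : ∀ u v, L.Adj u v ↔ K.Adj (e u) (e v) := fun u v => e.map_adj_iff.symm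
  rcases hK with ⟨⟨k, rfl⟩, hS, hf⟩ | hK | hK | hK
  · have hSL : Pool.Agent.H67.LF.SL K k := by
      rcases hf with h3 | hf
      · obtain rfl : k = 1 := by omega
        exact Pool.Agent.H67.LF.SL.one hS
      · refine ⟨hS, fun v => ?_⟩
        obtain ⟨m, p, a, h1, h2, h3⟩ := hf v
        exact Folding.vec _ (2 * k) m p a h1 h2 h3
    exact (Vanish.induced L K k e hSL.vanish).l2 i (by omega)
  · exact link_l2 L r K (Or.inl hK) e e.injective hadj i (Or.inl hi)
  · exact link_l2 L r K (Or.inr hK) e e.injective hadj i (Or.inl hi)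
  · exact link_nest L r K hK e e.injective hadj i (Or.inl hi)

/-- The right-angled Coxeter groups of complexes whose links in codimension `r` are good. -/
theorem l2_linksGood {V : Type} [DecidableEq V] [Fintype V] {L : SimpleGraph V} {m r : ℕ}
    (h : LinksGood L m r) {i : ℕ}
    (hi : 2 * m + r < 2 * i ∨ (HomologySphere L (m + r) ∧ 2 * i < r)) :
    Pool.Agent.H4.Singer.L2HomologyZero L i := by
  have key : ∀ j, 2 * m + r < 2 * j → Pool.Agent.H4.Singer.L2HomologyZero L j := by
    intro j hj
    refine l2_cliques (k := r / 2) (m := m) (fun σ hσ hm Z hZ j hj => ?_) (by omega)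
    obtain ⟨W, i1, i2, K, hK, ⟨e⟩⟩ := h σ hσ hm
    let e' : L.comap (Subtype.val : {v // v ∈ Z} → V) ↪g L.induce (cn L σ) :=
      ⟨⟨fun x => ⟨x.1, fun v hv => hZ x.1 x.2 v hv⟩, fun x y hxy => by
        have h1 := congrArg Subtype.val hxy
        exact Subtype.ext h1⟩, Iff.rfl⟩
    exact good_l2 _ K r hK (e'.trans e) (by omega)
  rcases hi with hi | ⟨hS, hi⟩
  · exact key i hi
  · exact Pool.Agent.H19.PD.l2_dual (j := m + r - i) hS.is (by omega) (key _ (by omega))

/-- Full subcomplexes of homology spheres of dimension `n - 1`: the links of the cliques with `n - 3` vertices are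
full subcomplexes of homology 2-spheres. -/
theorem linksGood_of_sphere {V W : Type} [DecidableEq W] [Fintype W] {L : SimpleGraph V}
    {K : SimpleGraph W} {n : ℕ} (hn : 3 ≤ n) (hK : HomologySphere K n) (e : L ↪g K) :
    LinksGood L (n - 3) 3 := by
  classical
  intro σ hσ hm
  have hcl : Pool.Agent.H85.Fold.Cl K (σ.map e.toEmbedding) := by
    intro a ha b hb hab
    obtain ⟨a', ha', rfl⟩ := mem_map.1 ha
    obtain ⟨b', hb', rfl⟩ := mem_map.1 hb
    exact e.map_adj_iff.2 (hσ (mem_coe.2 ha') (mem_coe.2 hb') fun h => hab (congrArg _ h))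
  let U : Finset W := univ.filter fun v => v ∉ σ.map e.toEmbedding ∧
    ∀ u ∈ σ.map e.toEmbedding, K.Adj u v
  have hU : ∀ v, v ∈ U ↔ v ∉ σ.map e.toEmbedding ∧ ∀ u ∈ σ.map e.toEmbedding, K.Adj u v :=
    fun v => ⟨fun h => (mem_filter.1 h).2, fun h => mem_filter.2 ⟨mem_univ _, h⟩⟩
  have h1 := Pool.Agent.H4.HY.sphere_link hK.is hcl hU
  have h2 : n - (σ.map e.toEmbedding).card = 3 := by
    rw [card_map, hm]
    omega
  rw [h2] at h1
  refine ⟨{v // v ∈ U}, inferInstance, inferInstance, K.comap Subtype.val,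
    Or.inl ⟨⟨1, rfl⟩, Pool.Agent.H67.LF.hs_of h1, Or.inl rfl⟩, ⟨⟨⟨fun x => ⟨e x.1, ?_⟩, ?_⟩, ?_⟩⟩⟩
  · rw [hU]
    constructor
    · intro h
      obtain ⟨y, hy, hyx⟩ := mem_map.1 h
      have h3 : y = x.1 := e.injective hyx
      exact (x.2 y hy).ne h3
    · intro u hu
      obtain ⟨y, hy, rfl⟩ := mem_map.1 hu
      exact e.map_adj_iff.2 (x.2 y hy)
  · intro x y hxy
    have h3 := congrArg Subtype.val hxy
    exact Subtype.ext (e.injective h3)
  · intro x y
    exact e.map_adj_iff

end Pool.Agent.H19.VX
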