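import Pool.Agent.H19.VX.Fin
import Pool.Agent.H3.CUT0.Reg
import Pool.Agent.H19.LG.RedM
import Pool.Agent.H71.KZ.FinH
import Pool.Agent.H71.KZ.InfH
import Pool.Agent.H19.LG.Prime
import Pool.Agent.H19.LG.Levels
import Pool.Agent.H4.Singer.LuckKer

/-!
# Project VX: adding a vertex, `ℓ²`

`HZ G Y i`: there are no harmonic `ℓ²`-chains of degree `i` on the labels `Y`. If there are none of degree `i + 1` on
`Y \ v` and none of degree `i` on the neighbours of `v` in `Y`, then there are none of degree `i + 1` on `Y`.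
-/

set_option autoImplicit false
set_option linter.unusedSectionVars false

open Finset Filter Topology

namespace Pool.Agent.H19.VX

open Pool.Agent.H19.Cub Pool.Agent.H19.LG Pool.Agent.H4.Singer Pool.Agent.H85.Fold
  Pool.Agent.H85.Fold2 Pool.Agent.H3.CUT0 Pool.Agent.H4.Atiyah

variable {V : Type} [DecidableEq V] [Fintype V] {G : SimpleGraph V}

/-- There are no harmonic `ℓ²`-chains of degree `i` on the labels `Y`. -/
def HZ (G : SimpleGraph V) (Y : Finset V) (i : ℕ) : Prop :=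
  ∀ ν : V → ℕ, Function.Injective ν → ∀ f : Finset V → Unit × RGrp G → ℂ,
    IsHarmS G (prY (cY Y) (RGrp G)) (prS triv (gen G)) ν i f → f = 0

theorem HZ.empty (i : ℕ) : HZ G ∅ (i + 1) := by
  intro ν _ f hf
  funext σ x
  by_contra hne
  obtain ⟨h1, -, h2⟩ := hf.chain.supp σ x hne
  rw [subset_empty.1 h1] at h2
  simp at h2

/-- the Kazhdan direction -/
private theorem kazh {Y : Finset V} {i : ℕ} (h : HZ G Y i) (ν : V → ℕ)
    (hν : Function.Injective ν) (P : ℕ → Type) [∀ j, Group (P j)]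
    [∀ j, Fintype (P j)] (π : ∀ j, RGrp G →* P j)
    (hsep : ∀ w : RGrp G, w ≠ 1 → ∀ᶠ j in atTop, π j w ≠ 1) (η : ℝ) (hη : 0 < η) :
    ∀ᶠ j in atTop, (bT ℂ G (prY (cY Y) (P j)) (prS triv (fun v => π j (gen G v))) ν i : ℝ) ≤
      η * Fintype.card (P j) := by
  classical
  have h1 := Pool.Agent.H71.KZ.l2ker_of_harm G (cY Y) triv (isSpec_triv G _) ν i
    fun f hf => h ν hν f hf
  have h2 := Pool.Agent.H71.KZ.vnDim_zero _ h1
  filter_upwards [(vnDim_approx π hsep (toC (HSA G (cY Y) triv ν i))).1 η hη] with j hj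
  refine (Pool.Agent.H71.KZ.bT_le_rank G (cY Y) triv (isSpec_triv G _) ν i (P j) (π j)).trans ?_
  rw [h2, zero_add] at hj
  exact hj

/-- the von Neumann dimension of the harmonic chains vanishes -/
private theorem vn_vertex [DecidableEq (RGrp G)] {Y : Finset V} {v : V} (hv : v ∈ Y) {i : ℕ}
    (h1 : HZ G (Y.erase v) (i + 1)) (h2 : HZ G (nb G Y v) i) (ν : V → ℕ)
    (hν : Function.Injective ν) : vnDim (toC (HSA G (cY Y) triv ν (i + 1))) ≤ 0 := by
  classical
  have : Fact (Nat.Prime 2) := ⟨Nat.prime_two⟩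
  obtain ⟨P, grp, fin, π, β, -, hsep, hg, -⟩ := exists_levels_rep G (D := Unit) (ZMod 2)
    (fun _ => 1) (fun _ => one_mul 1) (fun _ _ _ => rfl)
  refine le_of_forall_pos_le_add fun (η : ℝ) hη => ?_
  rw [zero_add]
  obtain ⟨j, hj1, hj2⟩ := ((kazh h1 ν hν P π hsep (η / 2) (by positivity)).and
    (kazh h2 ν hν P π hsep (η / 2) (by positivity))).exists
  have hgj : (fun v => π j (gen G v)) = (β j).g := funext fun v => (hg j v).symm
  rw [hgj] at hj1 hj2
  obtain ⟨p₁, hp₁⟩ := bT_large G (prY (cY (Y.erase v)) (P j)) (prS triv (β j).g) ν (i + 1)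
  obtain ⟨p₂, hp₂⟩ := bT_large G (prY (cY (nb G Y v)) (P j)) (prS triv (β j).g) ν i
  obtain ⟨p, hp1, hp2⟩ := Nat.exists_infinite_primes (p₁ + p₂ + 3)
  have : Fact p.Prime := ⟨hp2⟩
  have h3 : (2 : ZMod p) ≠ 0 := by
    intro h0
    have h1 : ((2 : ℕ) : ZMod p) = 0 := by exact_mod_cast h0
    rw [ZMod.natCast_eq_zero_iff] at h1
    have := Nat.le_of_dvd (by norm_num) h1
    omega
  have h4 := bS_vertex (reg (ZMod p) (β j)) v ν h3 hν hv i
  rw [bS_reg, bS_reg, bS_reg] at h4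
  have h5 := redM h3 (reg (ZMod p) (β j)) (cY Y) triv (isSpec_triv G _) ν hν (i + 1)
  rw [bS_reg] at h5
  have h6 := hp₁ p (by omega)
  have h7 := hp₂ p (by omega)
  refine h5.trans ?_
  have hP : (0 : ℝ) < Fintype.card (P j) := by exact_mod_cast Fintype.card_pos
  rw [div_le_iff₀ hP]
  have h8 : (2 : ℝ) * bT (ZMod p) G (prY (cY Y) (P j)) (prS triv (β j).g) ν (i + 1) ≤
      2 * bT ℂ G (prY (cY (Y.erase v)) (P j)) (prS triv (β j).g) ν (i + 1) +
        bT ℂ G (prY (cY (nb G Y v)) (P j)) (prS triv (β j).g) ν i := by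
    have h9 := h4.trans (add_le_add (Nat.mul_le_mul_left 2 h6) h7)
    exact_mod_cast h9
  nlinarith

/-- **Adding a vertex.** -/
theorem HZ.vertex {Y : Finset V} {v : V} (hv : v ∈ Y) {i : ℕ}
    (h1 : HZ G (Y.erase v) (i + 1)) (h2 : HZ G (nb G Y v) i) : HZ G Y (i + 1) := by
  classical
  intro ν hν f hf
  exact harm_infS G (cY Y) triv (isSpec_triv G _) ν (i + 1)
    (l2ker_trivial_of_vnDim _ (vn_vertex hv h1 h2 ν hν)) f hf

end Pool.Agent.H19.VX
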