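import Pool.Agent.H3.CUT0.Chain
import Pool.Agent.H19.LG.MDim
import Pool.Agent.H19.LG.Betti

/-!
# Project VX: adding a vertex, finite modules

Let `M` be a module with bits over a field of characteristic `≠ 2`, `v ∈ Y` and `N` the set of the neighbours of `v` in
`Y`. Then `2 b_{i+1} (Y; M) ≤ 2 b_{i+1} (Y \ v; M) + b_i (N; M)`: the cells with `v` form the chain complex of `N` with
values in the `-1`-eigenspace of `R v`, which is isomorphic to the `1`-eigenspace by `B v`.
-/

set_option autoImplicit false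
set_option linter.unusedSectionVars false

open Finset Matrix

namespace Pool.Agent.H19.VX

open Pool.Agent.H19.Cub Pool.Agent.H19.LG Pool.Agent.H4.Singer Pool.Agent.H85.Fold
  Pool.Agent.H85.Fold2 Pool.Agent.H3.CUT0

variable {V : Type} [DecidableEq V] [Fintype V] {G : SimpleGraph V}

/-- the neighbours of `v` in `Y` -/
noncomputable def nb (G : SimpleGraph V) (Y : Finset V) (v : V) : Finset V := by
  classical
  exact Y.filter fun u => G.Adj v u

theorem mem_nb {Y : Finset V} {u v : V} : u ∈ nb G Y v ↔ u ∈ Y ∧ G.Adj v u := by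
  classical
  unfold nb
  rw [mem_filter]

/-- constant labels -/
abbrev cY (Y : Finset V) : Unit → Finset V := fun _ => Y

/-! ### The number of the cliques -/

/-- the cliques with `i` elements -/
noncomputable def cq (G : SimpleGraph V) (Y : Finset V) (i : ℕ) : Finset (Finset V) := by
  classical
  exact univ.filter fun σ => σ ⊆ Y ∧ G.IsClique (σ : Set V) ∧ σ.card = i

theorem mem_cq {Y : Finset V} {i : ℕ} {σ : Finset V} :
    σ ∈ cq G Y i ↔ σ ⊆ Y ∧ G.IsClique (σ : Set V) ∧ σ.card = i := by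
  classical
  unfold cq
  rw [mem_filter]
  exact ⟨fun h => h.2, fun h => ⟨mem_univ _, h⟩⟩

theorem nn_cq (Y : Finset V) (i : ℕ) : nn G (cY Y) i = (cq G Y i).card := by
  classical
  unfold nn
  rw [← Fintype.card_coe]
  refine Fintype.card_congr
    ⟨fun r => ⟨r.1.2, mem_cq.2 ⟨r.2.1, r.2.2.1, r.2.2.2⟩⟩,
      fun σ => ⟨((), σ.1), (mem_cq.1 σ.2).1, (mem_cq.1 σ.2).2.1, (mem_cq.1 σ.2).2.2⟩, ?_, ?_⟩
  · rintro ⟨⟨_, σ⟩, h⟩
    rfl
  · rintro ⟨σ, h⟩
    rfl

theorem nn_split {Y : Finset V} {v : V} (hv : v ∈ Y) (j : ℕ) :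
    nn G (cY Y) (j + 1) = nn G (cY (Y.erase v)) (j + 1) + nn G (cY (nb G Y v)) j := by
  classical
  rw [nn_cq, nn_cq, nn_cq]
  have hN : ∀ σ ∈ cq G (nb G Y v) j, v ∉ σ := fun σ hσ h =>
    (mem_nb.1 ((mem_cq.1 hσ).1 h)).2.ne rfl
  have h1 : cq G Y (j + 1) = cq G (Y.erase v) (j + 1) ∪ (cq G (nb G Y v) j).image (insert v) := by
    ext σ
    rw [mem_union, mem_image]
    constructor
    · intro h
      obtain ⟨h1, h2, h3⟩ := mem_cq.1 h
      by_cases hvσ : v ∈ σ
      · right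
        refine ⟨σ.erase v, mem_cq.2 ⟨fun u hu => ?_, h2.subset (by simp), ?_⟩, insert_erase hvσ⟩
        · obtain ⟨h4, h5⟩ := mem_erase.1 hu
          exact mem_nb.2 ⟨h1 h5, h2 (mem_coe.2 hvσ) (mem_coe.2 h5) (Ne.symm h4)⟩
        · rw [card_erase_of_mem hvσ, h3]
          rfl
      · left
        exact mem_cq.2 ⟨fun u hu => mem_erase.2 ⟨fun e => hvσ (e ▸ hu), h1 hu⟩, h2, h3⟩
    · rintro (h | ⟨τ, h, rfl⟩)
      · obtain ⟨h1, h2, h3⟩ := mem_cq.1 h
        exact mem_cq.2 ⟨h1.trans (erase_subset _ _), h2, h3⟩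
      · obtain ⟨h1, h2, h3⟩ := mem_cq.1 h
        refine mem_cq.2 ⟨fun u hu => ?_, ?_, ?_⟩
        · rcases mem_insert.1 hu with rfl | hu
          · exact hv
          · exact (mem_nb.1 (h1 hu)).1
        · rw [coe_insert, SimpleGraph.isClique_insert]
          exact ⟨h2, fun u hu _ => (mem_nb.1 (h1 (mem_coe.1 hu))).2⟩
        · rw [card_insert_of_notMem (hN τ h), h3]
  rw [h1, card_union_of_disjoint, card_image_of_injOn]
  · intro σ hσ τ hτ h
    have h2 := hN σ (mem_coe.1 hσ)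
    have h3 := hN τ (mem_coe.1 hτ)
    have h4 : (insert v σ).erase v = (insert v τ).erase v := by
      show (insert v σ).erase v = (insert v τ).erase v
      have h5 : insert v σ = insert v τ := h
      rw [h5]
    rwa [erase_insert h2, erase_insert h3] at h4
  · rw [Finset.disjoint_left]
    intro σ h2 h3
    obtain ⟨τ, -, rfl⟩ := mem_image.1 h3
    exact absurd rfl (mem_erase.1 ((mem_cq.1 h2).1 (mem_insert_self v τ))).1

/-! ### The component at the vertex -/

section

variable {K : Type} [Field K] {D : Type} [Fintype D] [DecidableEq D] (M : MB G K D) (v : V)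
  (ν : V → ℕ)

/-- the component at `v` -/
def Lv : (Finset V → Unit → D → K) →ₗ[K] (Finset V → Unit → D → K) where
  toFun f τ u := if v ∈ τ then 0 else (sg ν v τ : K) • f (insert v τ) u
  map_add' f g := by
    funext τ u
    by_cases h : v ∈ τ
    · simp [h]
    · simp [h]
  map_smul' a f := by
    funext τ u
    by_cases h : v ∈ τ
    · simp [h]
    · simp only [if_neg h, Pi.smul_apply, RingHom.id_apply]
      rw [smul_comm]

theorem Lv_mem {f : Finset V → Unit → D → K} {τ : Finset V} (h : v ∈ τ) : Lv v ν f τ = 0 := by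
  funext u
  show (if v ∈ τ then (0 : D → K) else _) = 0
  rw [if_pos h]

theorem Lv_not {f : Finset V → Unit → D → K} {τ : Finset V} (h : v ∉ τ) (u : Unit) :
    Lv v ν f τ u = (sg ν v τ : K) • f (insert v τ) u := by
  show (if v ∈ τ then (0 : D → K) else _) = _
  rw [if_neg h]

theorem tdl_Lv (hν : Function.Injective ν) (f : Finset V → Unit → D → K) :
    tdl K ν (Lv v ν f) = -Lv v ν (tdl K ν f) := by
  funext τ u
  by_cases hc : v ∈ τ
  · rw [Pi.neg_apply, Pi.neg_apply, Lv_mem v ν hc, Pi.zero_apply, neg_zero, tdl_app]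
    refine sum_eq_zero fun w _ => ?_
    rw [Lv_mem v ν (mem_insert_of_mem hc), Pi.zero_apply, smul_zero]
  · rw [Pi.neg_apply, Pi.neg_apply, Lv_not v ν hc, tdl_app, tdl_app, smul_sum, ← sum_neg_distrib]
    have h1 : τᶜ = insert v (insert v τ)ᶜ := by
      ext w
      simp only [mem_compl, mem_insert, not_or]
      constructor
      · intro h
        by_cases hw : w = v
        · exact Or.inl hw
        · exact Or.inr ⟨hw, h⟩
      · rintro (rfl | ⟨-, h⟩)
        · exact hc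
        · exact h
    rw [h1, sum_insert (by simp)]
    rw [Lv_mem v ν (mem_insert_self v τ), Pi.zero_apply, smul_zero, zero_add]
    refine sum_congr rfl fun w hw => ?_
    rw [mem_compl, mem_insert, not_or] at hw
    rw [Lv_not v ν (by rw [mem_insert, not_or]; exact ⟨Ne.symm hw.1, hc⟩), Finset.insert_comm, smul_smul,
      smul_smul, ← neg_smul]
    congr 1
    have h2 := sg_swap (K := K) v ν hν hc hw.2 hw.1
    rw [h2, neg_neg]

variable {Y : Finset V}

/-- the components of the chains -/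
theorem Lv_supp {i : ℕ} {f : Finset V → Unit → D → K} {B : V → Matrix D D K}
    (hf : f ∈ SCh K G (cY Y) B triv (i + 1)) {τ : Finset V} {u : Unit} (h : Lv v ν f τ u ≠ 0) :
    v ∉ τ ∧ τ ⊆ nb G Y v ∧ Cl G τ ∧ τ.card = i := by
  have hc : v ∉ τ := fun hc => h (by rw [Lv_mem v ν hc]; rfl)
  rw [Lv_not v ν hc] at h
  have h1 : f (insert v τ) u ≠ 0 := fun h0 => h (by rw [h0, smul_zero])
  obtain ⟨h2, h3, h4⟩ := hf.1 _ _ h1
  refine ⟨hc, fun w hw => mem_nb.2 ⟨h2 (mem_insert_of_mem hw), ?_⟩, fun a ha b hb hab =>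
    h3 a (mem_insert_of_mem ha) b (mem_insert_of_mem hb) hab, ?_⟩
  · exact h3 v (mem_insert_self _ _) w (mem_insert_of_mem hw) fun e => hc (e ▸ hw)
  · rw [card_insert_of_notMem hc] at h4
    omega

/-- multiplication by a matrix -/
def mm (A : Matrix D D K) : (Finset V → Unit → D → K) →ₗ[K] (Finset V → Unit → D → K) where
  toFun f τ u := A.mulVec (f τ u)
  map_add' f g := by
    funext τ u
    exact Matrix.mulVec_add A (f τ u) (g τ u)
  map_smul' a f := by
    funext τ u
    exact Matrix.mulVec_smul A a (f τ u)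

theorem tdl_mm (A : Matrix D D K) (f : Finset V → Unit → D → K) :
    tdl K ν (mm A f) = mm A (tdl K ν f) := by
  funext τ u
  show ∑ w ∈ τᶜ, (sg ν w τ : K) • A.mulVec (f (insert w τ) u) =
    A.mulVec (∑ w ∈ τᶜ, (sg ν w τ : K) • f (insert w τ) u)
  rw [Matrix.mulVec_sum]
  exact sum_congr rfl fun w _ => (Matrix.mulVec_smul _ _ _).symm

/-- a component is in the `-1`-eigenspaces -/
theorem Lv_anti {i : ℕ} {f : Finset V → Unit → D → K}
    (hf : f ∈ SCh K G (cY Y) M.R triv (i + 1)) {τ : Finset V} {w : V} (hw : w ∈ insert v τ)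
    (u : Unit) : (M.R w).mulVec (Lv v ν f τ u) = -Lv v ν f τ u := by
  by_cases hc : v ∈ τ
  · rw [Lv_mem v ν hc, Pi.zero_apply, Matrix.mulVec_zero, neg_zero]
  · rw [Lv_not v ν hc, Matrix.mulVec_smul]
    have h1 : f (insert v τ) u = -(M.R w).mulVec (f (insert v τ) u) := hf.2 (insert v τ) w hw u
    have h2 : (M.R w).mulVec (f (insert v τ) u) = -f (insert v τ) u := by
      rw [eq_neg_iff_add_eq_zero] at h1
      exact eq_neg_of_add_eq_zero_right h1
    rw [h2, smul_neg]

/-- the components of the chains are chains of the link -/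
theorem Lv_ch {i : ℕ} {f : Finset V → Unit → D → K}
    (hf : f ∈ SCh K G (cY Y) M.R triv (i + 1)) :
    Lv v ν f ∈ SCh K G (cY (nb G Y v)) M.R triv i := by
  refine ⟨fun σ x h => (Lv_supp v ν hf h).2, fun σ w hw x => ?_⟩
  show Lv v ν f σ x = -(M.R w).mulVec (Lv v ν f σ x)
  rw [Lv_anti M v ν hf (mem_insert_of_mem hw), neg_neg]

theorem mm_ch {i : ℕ} {f : Finset V → Unit → D → K}
    (hf : f ∈ SCh K G (cY (nb G Y v)) M.R triv i) :
    mm (M.B v) f ∈ SCh K G (cY (nb G Y v)) M.R triv i := by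
  refine ⟨fun σ x h => hf.1 σ x fun h0 => h ?_, fun σ w hw x => ?_⟩
  · show (M.B v).mulVec (f σ x) = 0
    rw [h0, Matrix.mulVec_zero]
  · show (M.B v).mulVec (f σ x) = -(M.R w).mulVec ((M.B v).mulVec (f σ x))
    by_cases h0 : f σ x = 0
    · rw [h0, Matrix.mulVec_zero, Matrix.mulVec_zero, neg_zero]
    · have hwv : G.Adj v w := (mem_nb.1 ((hf.1 σ x h0).1 hw)).2
      have h1 : f σ x = -(M.R w).mulVec (f σ x) := hf.2 σ w hw x
      rw [Matrix.mulVec_mulVec, M.RB w v hwv.symm, ← Matrix.mulVec_mulVec]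
      conv_lhs => rw [h1]
      rw [Matrix.mulVec_neg]

/-- the map to the cycles of the link -/
def Tv : (Finset V → Unit → D → K) × (Finset V → Unit → D → K) →ₗ[K]
    (Finset V → Unit → D → K) :=
  (Lv v ν).comp (LinearMap.fst K _ _) + ((mm (M.B v)).comp (Lv v ν)).comp (LinearMap.snd K _ _)

theorem Tv_app (f g : Finset V → Unit → D → K) :
    Tv M v ν (f, g) = Lv v ν f + mm (M.B v) (Lv v ν g) := rfl

theorem Tv_cyc (hν : Function.Injective ν) {i : ℕ} {f g : Finset V → Unit → D → K}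
    (hf : f ∈ SZ K G (cY Y) M.R triv ν (i + 1)) (hg : g ∈ SZ K G (cY Y) M.R triv ν (i + 1)) :
    Tv M v ν (f, g) ∈ SZ K G (cY (nb G Y v)) M.R triv ν i := by
  refine ⟨Submodule.add_mem _ (Lv_ch M v ν hf.1) (mm_ch M v (Lv_ch M v ν hg.1)), ?_⟩
  show tdl K ν (Lv v ν f + mm (M.B v) (Lv v ν g)) = 0
  have h1 : tdl K ν f = 0 := hf.2
  have h2 : tdl K ν g = 0 := hg.2
  rw [map_add, tdl_mm, tdl_Lv v ν hν, tdl_Lv v ν hν, h1, h2]
  simp

/-- a chain without component at `v` -/
theorem erase_mem {i : ℕ} {B : V → Matrix D D K} {f : Finset V → Unit → D → K}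
    (hf : f ∈ SZ K G (cY Y) B triv ν (i + 1)) (h0 : Lv v ν f = 0) :
    f ∈ SZ K G (cY (Y.erase v)) B triv ν (i + 1) := by
  refine ⟨⟨fun σ x h => ?_, hf.1.2⟩, hf.2⟩
  obtain ⟨h1, h2, h3⟩ := hf.1.1 σ x h
  refine ⟨fun w hw => mem_erase.2 ⟨?_, h1 hw⟩, h2, h3⟩
  rintro rfl
  have h4 : Lv w ν f (σ.erase w) x = 0 := by rw [h0]; rfl
  rw [Lv_not w ν (by simp), insert_erase hw] at h4
  have h5 := sg_mul_self (K := K) ν w (σ.erase w)
  have h6 : f σ x = ((sg ν w (σ.erase w) : K) * (sg ν w (σ.erase w) : K)) • f σ x := by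
    rw [h5, one_smul]
  rw [mul_smul, h4, smul_zero] at h6
  exact h h6

theorem Tv_ker (h2 : (2 : K) ≠ 0) {i : ℕ} {f g : Finset V → Unit → D → K}
    (hf : f ∈ SZ K G (cY Y) M.R triv ν (i + 1)) (hg : g ∈ SZ K G (cY Y) M.R triv ν (i + 1))
    (h : Tv M v ν (f, g) = 0) :
    f ∈ SZ K G (cY (Y.erase v)) M.R triv ν (i + 1) ∧
      g ∈ SZ K G (cY (Y.erase v)) M.R triv ν (i + 1) := by
  have key : ∀ τ u, Lv v ν f τ u = 0 ∧ Lv v ν g τ u = 0 := by
    intro τ u
    have e1 : Lv v ν f τ u + (M.B v).mulVec (Lv v ν g τ u) = 0 := congrFun (congrFun h τ) u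
    have e2 := congrArg (M.R v).mulVec e1
    rw [Matrix.mulVec_add, Matrix.mulVec_zero, Lv_anti M v ν hf.1 (mem_insert_self _ _),
      Matrix.mulVec_mulVec, M.anti, Matrix.neg_mulVec, ← Matrix.mulVec_mulVec,
      Lv_anti M v ν hg.1 (mem_insert_self _ _), Matrix.mulVec_neg, neg_neg] at e2
    have e3 : (2 : K) • Lv v ν f τ u = 0 := by
      have e4 : (2 : K) • Lv v ν f τ u =
          (Lv v ν f τ u + (M.B v).mulVec (Lv v ν g τ u)) -
            (-Lv v ν f τ u + (M.B v).mulVec (Lv v ν g τ u)) := by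
        rw [two_smul]
        abel
      rw [e4, e1, e2, sub_zero]
    have e5 : Lv v ν f τ u = 0 := (smul_eq_zero.1 e3).resolve_left h2
    refine ⟨e5, ?_⟩
    rw [e5, zero_add] at e1
    have e6 := congrArg (M.B v).mulVec e1
    rwa [Matrix.mulVec_mulVec, M.B_sq, Matrix.one_mulVec, Matrix.mulVec_zero] at e6
  exact ⟨erase_mem v ν hf (funext fun τ => funext fun u => (key τ u).1),
    erase_mem v ν hg (funext fun τ => funext fun u => (key τ u).2)⟩

theorem rank_Z (h2 : (2 : K) ≠ 0) (hν : Function.Injective ν) (i : ℕ) :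
    2 * Module.finrank K (SZ K G (cY Y) M.R triv ν (i + 1)) ≤
      2 * Module.finrank K (SZ K G (cY (Y.erase v)) M.R triv ν (i + 1)) +
        Module.finrank K (SZ K G (cY (nb G Y v)) M.R triv ν i) := by
  let A := SZ K G (cY Y) M.R triv ν (i + 1)
  let B := SZ K G (cY (Y.erase v)) M.R triv ν (i + 1)
  let C := SZ K G (cY (nb G Y v)) M.R triv ν i
  let T : (A × A) →ₗ[K] C := LinearMap.codRestrict C
    ((Tv M v ν).comp (A.subtype.prodMap A.subtype)) fun x => Tv_cyc M v ν hν x.1.2 x.2.2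
  have hker : ∀ x : LinearMap.ker T, x.1.1.1 ∈ B ∧ x.1.2.1 ∈ B := by
    intro x
    refine Tv_ker M v ν h2 x.1.1.2 x.1.2.2 ?_
    have h1 : T x.1 = 0 := x.2
    exact congrArg Subtype.val h1
  let I : LinearMap.ker T →ₗ[K] B × B :=
    { toFun := fun x => (⟨x.1.1.1, (hker x).1⟩, ⟨x.1.2.1, (hker x).2⟩)
      map_add' := fun _ _ => rfl
      map_smul' := fun _ _ => rfl }
  have hI : Function.Injective I := by
    intro x y hxy
    have h1 := congrArg (fun z => (z.1.1, z.2.1)) hxy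
    have h3 : (x.1.1.1, x.1.2.1) = (y.1.1.1, y.1.2.1) := h1
    rw [Prod.mk.injEq] at h3
    exact Subtype.ext (Prod.ext (Subtype.ext h3.1) (Subtype.ext h3.2))
  have e1 := LinearMap.finrank_range_add_finrank_ker T
  have e2 : Module.finrank K (LinearMap.range T) ≤ Module.finrank K C := Submodule.finrank_le _
  have e3 := LinearMap.finrank_le_finrank_of_injective hI
  rw [Module.finrank_prod] at e1 e3
  show 2 * Module.finrank K A ≤ 2 * Module.finrank K B + Module.finrank K C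
  omega

/-- the chains -/
theorem rank_C (h2 : (2 : K) ≠ 0) (hv : v ∈ Y) (j : ℕ) :
    2 * Module.finrank K (SCh K G (cY Y) M.R triv (j + 1)) =
      2 * Module.finrank K (SCh K G (cY (Y.erase v)) M.R triv (j + 1)) +
        Module.finrank K (SCh K G (cY (nb G Y v)) M.R triv j) := by
  have h3 := two_pow_M h2 M (cY Y) (j + 1)
  have h4 := two_pow_M h2 M (cY (Y.erase v)) (j + 1)
  have h5 := two_pow_M h2 M (cY (nb G Y v)) j
  rw [nn_split hv, mul_add, ← h4, ← h5] at h3
  have h6 : 2 ^ j * (2 * Module.finrank K (SCh K G (cY Y) M.R triv (j + 1))) =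
      2 ^ j * (2 * Module.finrank K (SCh K G (cY (Y.erase v)) M.R triv (j + 1)) +
        Module.finrank K (SCh K G (cY (nb G Y v)) M.R triv j)) := by
    rw [mul_add, ← mul_assoc, ← mul_assoc, ← pow_succ]
    exact h3
  exact Nat.eq_of_mul_eq_mul_left (by positivity) h6

/-- **Adding a vertex.** -/
theorem bS_vertex (h2 : (2 : K) ≠ 0) (hν : Function.Injective ν) (hv : v ∈ Y) (i : ℕ) :
    2 * bS K G (cY Y) M.R triv ν (i + 1) ≤
      2 * bS K G (cY (Y.erase v)) M.R triv ν (i + 1) +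
        bS K G (cY (nb G Y v)) M.R triv ν i := by
  have h3 := bS_add K G (cY Y) M.R triv (isSpec_triv G _) ν hν (i + 1)
  have h4 := bS_add K G (cY (Y.erase v)) M.R triv (isSpec_triv G _) ν hν (i + 1)
  have h5 := bS_add K G (cY (nb G Y v)) M.R triv (isSpec_triv G _) ν hν i
  have h6 := rank_Z M v ν (Y := Y) h2 hν i
  have h7 := rank_Z M v ν (Y := Y) h2 hν (i + 1)
  have h8 := rank_C M v (Y := Y) h2 hv (i + 1)
  omega

end

end Pool.Agent.H19.VX
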