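import Pool.Agent.H19.LG.VnLe
import Pool.Agent.H19.LG.Final

/-!
# Project VX: the `ℓ²`-homology of the universal cover from the Betti numbers of the finite levels
-/

set_option autoImplicit false

open Finset Filter Topology

namespace Pool.Agent.H19.VX

open Pool.Agent.H19.Cub Pool.Agent.H19.LG Pool.Agent.H4.Singer Pool.Agent.H85.Fold
  Pool.Agent.H85.Fold2 Pool.Agent.H4.Atiyah

/-- If the complex Betti numbers in degree `i` of the products `Q × P j` with the finite levels of a residual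
sequence are `o(|P j|)`, then the reduced `ℓ²`-homology of the universal cover of `Q` vanishes in degree `i`. -/
theorem cover_l2_of_levels {V X : Type} [DecidableEq V] [Fintype V] [Fintype X]
    (Q : CubeComplex V X) (x : X) (i : ℕ) (P : ℕ → Type) [∀ j, Group (P j)] [∀ j, Fintype (P j)]
    (π : ∀ j, RGrp Q.graph →* P j)
    (hsep : ∀ w : RGrp Q.graph, w ≠ 1 → ∀ᶠ j in atTop, π j w ≠ 1)
    (h : ∀ ν : V → ℕ, Function.Injective ν → ∀ η : ℝ, 0 < η → ∀ᶠ j in atTop,
      (bT ℂ Q.graph (prY Q.lab (P j)) (prS Q.cs fun v => π j (gen Q.graph v)) ν i : ℝ) ≤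
        η * Fintype.card (P j)) :
    L2HomologyZero (Q.cover x) i := by
  classical
  intro ν hν z hz hdz ε hε
  have h2 : vnDim (toC (HSA Q.graph Q.lab Q.cs ν i)) ≤ 0 := by
    refine le_of_forall_pos_le_add fun η hη => ?_
    rw [zero_add]
    refine vnDim_le π hsep (HSA Q.graph Q.lab Q.cs ν i) η hη.le ?_
    filter_upwards [h ν hν η hη] with j hj
    exact (harm_finS Q.graph Q.lab Q.cs Q.isSpec ν hν i (P j) (π j)).trans hj
  have h3 : ∀ f : Finset V → Q.Cover x → ℂ,
      IsHarmS Q.graph (Q.cover x).lab (Q.cover x).cs ν i f → f = 0 := fun f hf =>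
    Q.harm_ext x ν i (harm_infS Q.graph Q.lab Q.cs Q.isSpec ν i
      (l2ker_trivial_of_vnDim _ h2)) f hf
  obtain ⟨y, hy, hye⟩ := hodgeS Q.graph (Q.cover x).lab (Q.cover x).cs (Q.cover x).isSpec ν hν i
    h3 z (((Q.cover x).isL2_iff i z).1 hz) hdz ε hε
  exact ⟨y, ((Q.cover x).isL2_iff (i + 1) y).2 hy, hye⟩

end Pool.Agent.H19.VX
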