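import Pool.Agent.H19.VX.Cut
import Pool.Agent.H85.LG.Bridge
import Pool.Agent.H4.Singer.L2Hodge
import Pool.Agent.H19.LG.StarZero

/-!
# Project VX: the `ℓ²`-homology of right-angled Coxeter groups and the links of the cliques

If for all cliques `σ` with `m` vertices and all full subcomplexes of the link of `σ` the reduced `ℓ²`-homology of
the right-angled Coxeter group vanishes in all degrees `> k`, then it vanishes for the whole complex in all degrees
`> k + m`.
-/

set_option autoImplicit false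
set_option linter.unusedSectionVars false

open Finset

namespace Pool.Agent.H19.VX

open Pool.Agent.H19.Cub Pool.Agent.H19.LG Pool.Agent.H4.Singer

variable {V : Type} [DecidableEq V] [Fintype V] {G : SimpleGraph V}

/-- the one-vertex complex -/
def ov (G : SimpleGraph V) (Y : Finset V) : CubeComplex V Unit where
  graph := G
  lab _ := Y
  nb _ _ := ()
  lab_nb _ _ h := h
  nb_nb _ _ _ := rfl
  lab_adj _ _ _ _ h _ := h
  nb_comm _ _ _ _ _ _ := rfl

/-- from the full subcomplex to the labels -/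
theorem hz_of_l2 {Y : Finset V} {i : ℕ} (h : Pool.Agent.H4.Singer.L2HomologyZero
    (G.comap (Subtype.val : {v // v ∈ Y} → V)) i) : HZ G Y i := fun ν hν f hf =>
  Pool.Agent.H19.LG.star_zero (ov G Y) i (fun x => Pool.Agent.H85.LG.star_l2 (ov G Y) x i h) ν hν f hf

/-- all labels -/
theorem l2_of_hz {i : ℕ} (h : HZ G univ i) : Pool.Agent.H4.Singer.L2HomologyZero G i := by
  intro ν hν z hz hdz ε hε
  refine l2_hodge G ν hν i (fun x0 hx0 => ?_) z hz hdz ε hε
  have h1 : IsHarmS G (prY (cY univ) (RGrp G)) (prS triv (gen G)) ν i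
      (fun σ (x : Unit × RGrp G) => x0 σ x.2) := by
    refine ⟨⟨fun σ x hne => ?_, fun σ v hv x => ?_, fun σ => ?_⟩, ?_, fun ρ x _ hc hcard => ?_⟩
    · exact ⟨subset_univ _, hx0.chain.supp σ x.2 hne⟩
    · exact hx0.chain.anti σ v hv x.2
    · have h2 := (Equiv.punitProd (RGrp G)).summable_iff (f := fun w => ‖x0 σ w‖ ^ 2)
      exact h2.2 (hx0.chain.l2 σ)
    · funext τ x
      exact congrFun (congrFun hx0.cyc τ) x.2
    · exact hx0.cocyc ρ x.2 hc hcard
  have h2 := h ν hν _ h1
  funext σ w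
  exact congrFun (congrFun h2 σ) ((), w)

/-- no harmonic chains in the degrees `> k` on the subsets of `Y` -/
def PZ (G : SimpleGraph V) (Y : Finset V) (k : ℕ) : Prop := ∀ Z ⊆ Y, ∀ i, k < i → HZ G Z i

theorem nb_mono {Y Z : Finset V} (h : Z ⊆ Y) (v : V) : nb G Z v ⊆ nb G Y v := fun _ hu =>
  mem_nb.2 ⟨h (mem_nb.1 hu).1, (mem_nb.1 hu).2⟩

theorem PZ.vertex {Y : Finset V} {k : ℕ} {v : V} (h1 : PZ G (Y.erase v) (k + 1))
    (h2 : PZ G (nb G Y v) k) : PZ G Y (k + 1) := by
  intro Z hZ i hi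
  by_cases hv : v ∈ Z
  · obtain ⟨j, rfl⟩ : ∃ j, i = j + 1 := ⟨i - 1, by omega⟩
    exact HZ.vertex hv (h1 _ (erase_subset_erase v hZ) _ hi) (h2 _ (nb_mono hZ v) j (by omega))
  · exact h1 Z (fun u hu => mem_erase.2 ⟨fun e => hv (e ▸ hu), hZ hu⟩) i hi

theorem PZ.links {Y : Finset V} {k : ℕ} (h : ∀ v ∈ Y, PZ G (nb G Y v) k) : PZ G Y (k + 1) := by
  have key : ∀ Z : Finset V, Z ⊆ Y → PZ G Z (k + 1) := by
    intro Z
    induction Z using Finset.induction_on with
    | empty =>
      intro _ S hS i hi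
      rw [subset_empty.1 hS]
      obtain ⟨j, rfl⟩ : ∃ j, i = j + 1 := ⟨i - 1, by omega⟩
      exact HZ.empty j
    | insert u Z hu ih =>
      intro hZ
      refine PZ.vertex (v := u) ?_ ?_
      · rw [erase_insert hu]
        exact ih ((subset_insert u Z).trans hZ)
      · intro S hS i hi
        exact h u (hZ (mem_insert_self u Z)) S (hS.trans (nb_mono hZ u)) i hi
  exact key Y Subset.rfl

/-- the common neighbours of the vertices of `σ` -/
noncomputable def cnb (G : SimpleGraph V) (σ : Finset V) : Finset V := by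
  classical
  exact univ.filter fun w => ∀ v ∈ σ, G.Adj v w

theorem mem_cnb {σ : Finset V} {w : V} : w ∈ cnb G σ ↔ ∀ v ∈ σ, G.Adj v w := by
  classical
  unfold cnb
  rw [mem_filter]
  exact ⟨fun h => h.2, fun h => ⟨mem_univ _, h⟩⟩

theorem PZ.cliques {k m : ℕ} (h : ∀ σ : Finset V, G.IsClique (σ : Set V) → σ.card = m →
    PZ G (cnb G σ) k) (j : ℕ) : ∀ τ : Finset V, G.IsClique (τ : Set V) → τ.card + j = m →
      PZ G (cnb G τ) (k + j) := by
  induction j with
  | zero => exact fun τ hτ hm => h τ hτ hm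
  | succ j ih =>
    intro τ hτ hm
    refine PZ.links fun v hv => ?_
    have hvτ : ∀ u ∈ τ, G.Adj u v := mem_cnb.1 hv
    have hvn : v ∉ τ := fun h1 => (hvτ v h1).ne rfl
    have h1 := ih (insert v τ) (by
      rw [coe_insert, SimpleGraph.isClique_insert]
      exact ⟨hτ, fun u hu _ => (hvτ u (mem_coe.1 hu)).symm⟩) (by
      rw [card_insert_of_notMem hvn]
      omega)
    intro Z hZ i hi
    refine h1 Z (fun w hw => mem_cnb.2 fun u hu => ?_) i hi
    have h2 := mem_nb.1 (hZ hw)
    rcases mem_insert.1 hu with rfl | hu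
    · exact h2.2
    · exact mem_cnb.1 h2.1 u hu

/-- **The links of the cliques.** If for all cliques `σ` with `m` vertices and all full subcomplexes of the
link of `σ` the reduced `ℓ²`-homology of the right-angled Coxeter group vanishes in all degrees `> k`, then it
vanishes for `G` in all degrees `> k + m`. -/
theorem l2_cliques {k m : ℕ} (h : ∀ σ : Finset V, G.IsClique (σ : Set V) → σ.card = m →
    ∀ Z : Finset V, (∀ w ∈ Z, ∀ v ∈ σ, G.Adj v w) → ∀ i, k < i →
      Pool.Agent.H4.Singer.L2HomologyZero (G.comap (Subtype.val : {v // v ∈ Z} → V)) i)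
    {i : ℕ} (hi : k + m < i) : Pool.Agent.H4.Singer.L2HomologyZero G i := by
  have h1 := PZ.cliques (G := G) (k := k) (m := m) (fun σ hσ hm Z hZ i hi =>
    hz_of_l2 (h σ hσ hm Z (fun w hw => mem_cnb.1 (hZ hw)) i hi)) m ∅ (by simp) (by simp)
  refine l2_of_hz (h1 univ (fun w _ => mem_cnb.2 fun v hv => absurd hv (notMem_empty v)) i hi)

end Pool.Agent.H19.VX
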